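import Pool.Agent.W680.WH.Stm

/-!
# WHH-CPT: averages of rank one operators
-/

set_option autoImplicit false

open ContinuousLinearMap Filter Topology
open scoped ComplexConjugate InnerProductSpace

namespace Pool.Agent.W402.WHH

open Pool.Agent.W680.WH (S_CPT)



section compact

variable {K : Type} [NormedAddCommGroup K] [InnerProductSpace ℂ K] [CompleteSpace K]

lemma norm_sq_re (y : K) : ‖y‖ ^ 2 = (⟪y, y⟫_ℂ).re := by
  have h := inner_self_eq_norm_sq (𝕜 := ℂ) y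
  rw [← h]
  rfl

/-- Cauchy-Schwarz for a positive operator -/
lemma norm_sq_le (C : K →L[ℂ] K) (hsa : adjoint C = C) (hpos : ∀ f, 0 ≤ (⟪f, C f⟫_ℂ).re) (u : K) :
    ‖C u‖ ^ 2 ≤ ‖C‖ * (⟪u, C u⟫_ℂ).re := by
  by_cases h0 : ‖C‖ = 0
  · have h1 : C = 0 := norm_eq_zero.1 h0
    rw [h1]
    simp
  have hC : 0 < ‖C‖ := lt_of_le_of_ne (norm_nonneg _) (Ne.symm h0)
  have e1 : (⟪u, C (C u)⟫_ℂ).re = ‖C u‖ ^ 2 := by
    rw [norm_sq_re, ← adjoint_inner_left, hsa]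
  have e2 : (⟪C u, C u⟫_ℂ).re = ‖C u‖ ^ 2 := (norm_sq_re _).symm
  have e3 : (⟪C u, C (C u)⟫_ℂ).re ≤ ‖C‖ * ‖C u‖ ^ 2 := by
    calc (⟪C u, C (C u)⟫_ℂ).re ≤ ‖⟪C u, C (C u)⟫_ℂ‖ := Complex.re_le_norm _
      _ ≤ ‖C u‖ * ‖C (C u)‖ := norm_inner_le_norm _ _
      _ ≤ ‖C u‖ * (‖C‖ * ‖C u‖) := by
          gcongr
          exact C.le_opNorm _
      _ = ‖C‖ * ‖C u‖ ^ 2 := by ring
  have h := hpos (u - ((‖C‖⁻¹ : ℝ) : ℂ) • C u)
  have e4 : (⟪u - ((‖C‖⁻¹ : ℝ) : ℂ) • C u, C (u - ((‖C‖⁻¹ : ℝ) : ℂ) • C u)⟫_ℂ).re =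
      (⟪u, C u⟫_ℂ).re - 2 * ‖C‖⁻¹ * ‖C u‖ ^ 2 + ‖C‖⁻¹ ^ 2 * (⟪C u, C (C u)⟫_ℂ).re := by
    rw [map_sub, map_smul, inner_sub_left, inner_sub_right, inner_sub_right, inner_smul_left,
      inner_smul_right, inner_smul_left, inner_smul_right, Complex.conj_ofReal]
    simp only [Complex.sub_re, Complex.re_ofReal_mul]
    rw [e1, e2]
    ring
  rw [e4] at h
  have h5 : ‖C‖⁻¹ ^ 2 * (⟪C u, C (C u)⟫_ℂ).re ≤ ‖C‖⁻¹ * ‖C u‖ ^ 2 := by
    calc ‖C‖⁻¹ ^ 2 * (⟪C u, C (C u)⟫_ℂ).re ≤ ‖C‖⁻¹ ^ 2 * (‖C‖ * ‖C u‖ ^ 2) := by gcongr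
      _ = ‖C‖⁻¹ * ‖C u‖ ^ 2 := by field_simp
  have h6 : ‖C‖⁻¹ * ‖C u‖ ^ 2 ≤ (⟪u, C u⟫_ℂ).re := by linarith
  calc ‖C u‖ ^ 2 = ‖C‖ * (‖C‖⁻¹ * ‖C u‖ ^ 2) := by field_simp
    _ ≤ ‖C‖ * (⟪u, C u⟫_ℂ).re := by gcongr

/-- rank one operators are compact -/
lemma rank_one (b y : K) : IsCompactOperator ((innerSL ℂ b).smulRight y : K →L[ℂ] K) := by
  have h1 : IsCompactOperator (innerSL ℂ b : K →L[ℂ] ℂ) :=
    isCompactOperator_of_locallyCompactSpace_dom _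
  have h2 := h1.clm_comp (ContinuousLinearMap.toSpanSingleton ℂ y)
  have h3 : (⇑(ContinuousLinearMap.toSpanSingleton ℂ y) ∘ ⇑(innerSL ℂ b : K →L[ℂ] ℂ)) =
      ⇑((innerSL ℂ b).smulRight y : K →L[ℂ] K) := by
    funext z
    simp
  rwa [h3] at h2

/-- positive operators of trace class are compact -/
lemma cpt_of_trace (C : K →L[ℂ] K) (hsa : adjoint C = C) (hpos : ∀ f, 0 ≤ (⟪f, C f⟫_ℂ).re)
    (M : ℝ) (hb : ∀ (ι : Type) (b : ι → K), Orthonormal ℂ b → ∀ s : Finset ι,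
      ∑ i ∈ s, (⟪b i, C (b i)⟫_ℂ).re ≤ M) : IsCompactOperator C := by
  classical
  obtain ⟨w, b, -⟩ := exists_hilbertBasis ℂ K
  have hsum : Summable (fun i => ‖C (b i)‖ ^ 2) := by
    refine summable_of_sum_le (c := ‖C‖ * M) (fun i => by positivity) (fun s => ?_)
    calc ∑ i ∈ s, ‖C (b i)‖ ^ 2 ≤ ∑ i ∈ s, ‖C‖ * (⟪b i, C (b i)⟫_ℂ).re :=
          Finset.sum_le_sum fun i _ => norm_sq_le C hsa hpos (b i)
      _ = ‖C‖ * ∑ i ∈ s, (⟪b i, C (b i)⟫_ℂ).re := by rw [Finset.mul_sum]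
      _ ≤ ‖C‖ * M := by
          gcongr
          exact hb w b b.orthonormal s
  let F : Finset w → (K →L[ℂ] K) := fun s => ∑ i ∈ s, (innerSL ℂ (b i)).smulRight (C (b i))
  have hF : ∀ s, IsCompactOperator (F s) := by
    intro s
    have : F s ∈ compactOperator (RingHom.id ℂ) K K :=
      Submodule.sum_mem _ (fun i _ => rank_one (b i) (C (b i)))
    exact this
  refine isCompactOperator_of_tendsto (l := atTop) (F := F) ?_ (Eventually.of_forall hF)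
  rw [Metric.tendsto_atTop]
  intro ε hε
  obtain ⟨s0, hs0⟩ := summable_iff_vanishing_norm.1 hsum ((ε / 2) ^ 2) (by positivity)
  refine ⟨s0, fun s hs => ?_⟩
  rw [dist_comm, dist_eq_norm]
  refine lt_of_le_of_lt (ContinuousLinearMap.opNorm_le_bound _ (by positivity : 0 ≤ ε / 2)
    (fun f => ?_)) (by linarith)
  have hrep : HasSum (fun i => ⟪b i, f⟫_ℂ • C (b i)) (C f) := by
    have h1 := (b.hasSum_repr f).mapL C
    simpa [b.repr_apply_apply] using h1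
  have hFs : F s f = ∑ i ∈ s, ⟪b i, f⟫_ℂ • C (b i) := by
    simp [F]
  have hlim : Tendsto (fun t : Finset w => ‖(∑ i ∈ t, ⟪b i, f⟫_ℂ • C (b i)) - F s f‖) atTop
      (𝓝 ‖C f - F s f‖) := (Tendsto.sub_const hrep _).norm
  refine le_of_tendsto hlim ?_
  filter_upwards [eventually_ge_atTop s] with t ht
  rw [hFs, ← Finset.sum_sdiff ht, add_sub_cancel_right]
  have hdis : Disjoint (t \ s) s0 :=
    Finset.disjoint_of_subset_right hs Finset.sdiff_disjoint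
  have h1 := hs0 _ hdis
  rw [Real.norm_of_nonneg (Finset.sum_nonneg fun i _ => by positivity)] at h1
  have h2 : ∑ i ∈ t \ s, ‖⟪b i, f⟫_ℂ‖ ^ 2 ≤ ‖f‖ ^ 2 := b.orthonormal.sum_inner_products_le f
  have h3 : ‖∑ i ∈ t \ s, ⟪b i, f⟫_ℂ • C (b i)‖ ≤ ∑ i ∈ t \ s, ‖⟪b i, f⟫_ℂ‖ * ‖C (b i)‖ := by
    refine (norm_sum_le _ _).trans (le_of_eq ?_)
    exact Finset.sum_congr rfl fun i _ => norm_smul _ _
  have h4 := Finset.sum_mul_sq_le_sq_mul_sq (t \ s) (fun i => ‖⟪b i, f⟫_ℂ‖) (fun i => ‖C (b i)‖)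
  have h5 : (∑ i ∈ t \ s, ‖⟪b i, f⟫_ℂ‖ * ‖C (b i)‖) ^ 2 ≤ (ε / 2 * ‖f‖) ^ 2 := by
    refine h4.trans ?_
    calc (∑ i ∈ t \ s, ‖⟪b i, f⟫_ℂ‖ ^ 2) * ∑ i ∈ t \ s, ‖C (b i)‖ ^ 2
        ≤ ‖f‖ ^ 2 * (ε / 2) ^ 2 := by
          gcongr
      _ = (ε / 2 * ‖f‖) ^ 2 := by ring
  exact h3.trans (le_of_sq_le_sq h5 (by positivity))

end compact

section limit

/-- the limit along an ultrafilter -/
noncomputable def UL (a : ℕ → ℂ) : ℂ := limUnder (hyperfilter ℕ : Filter ℕ) a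

lemma UL_tendsto (a : ℕ → ℂ) (M : ℝ) (h : ∀ n, ‖a n‖ ≤ M) :
    Tendsto a (hyperfilter ℕ : Filter ℕ) (𝓝 (UL a)) := by
  have hc : IsCompact (Metric.closedBall (0 : ℂ) M) := isCompact_closedBall 0 M
  obtain ⟨z, -, hle⟩ := hc.ultrafilter_le_nhds ((hyperfilter ℕ).map a) (by
    rw [le_principal_iff]
    refine Filter.mem_map.2 (Filter.univ_mem' fun n => ?_)
    simpa using h n)
  exact tendsto_nhds_limUnder ⟨z, hle⟩

lemma UL_unique (a : ℕ → ℂ) (z : ℂ) (h : Tendsto a (hyperfilter ℕ : Filter ℕ) (𝓝 z)) :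
    UL a = z := h.limUnder_eq

end limit

section average

variable {K : Type} [NormedAddCommGroup K] [InnerProductSpace ℂ K] [CompleteSpace K]
  (U : K →L[ℂ] K) (x : K)

/-- the averages -/
noncomputable def av (N : ℕ) (v w : K) : ℂ :=
  ((N : ℂ) + 1)⁻¹ * ∑ j ∈ Finset.range (N + 1), ⟪v, (U ^ j) x⟫_ℂ * ⟪(U ^ j) x, w⟫_ℂ

variable {U}

lemma norm_U (hU : adjoint U * U = 1) (y : K) : ‖U y‖ = ‖y‖ := by
  have h1 : ‖U y‖ ^ 2 = ‖y‖ ^ 2 := by
    rw [norm_sq_re, norm_sq_re, ← adjoint_inner_left]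
    have h2 : adjoint U (U y) = y := by
      have := congrArg (fun A : K →L[ℂ] K => A y) hU
      simpa using this
    rw [h2]
  exact (pow_left_inj₀ (norm_nonneg _) (norm_nonneg _) two_ne_zero).1 h1

lemma norm_Upow (hU : adjoint U * U = 1) (j : ℕ) : ‖(U ^ j) x‖ = ‖x‖ := by
  induction j with
  | zero => simp
  | succ j ih =>
    rw [pow_succ']
    show ‖U ((U ^ j) x)‖ = ‖x‖
    rw [norm_U hU, ih]

lemma term_le (hU : adjoint U * U = 1) (j : ℕ) (v w : K) :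
    ‖⟪v, (U ^ j) x⟫_ℂ * ⟪(U ^ j) x, w⟫_ℂ‖ ≤ ‖x‖ ^ 2 * ‖v‖ * ‖w‖ := by
  rw [norm_mul]
  calc ‖⟪v, (U ^ j) x⟫_ℂ‖ * ‖⟪(U ^ j) x, w⟫_ℂ‖
      ≤ (‖v‖ * ‖(U ^ j) x‖) * (‖(U ^ j) x‖ * ‖w‖) := by
        gcongr
        · exact norm_inner_le_norm _ _
        · exact norm_inner_le_norm _ _
    _ = ‖x‖ ^ 2 * ‖v‖ * ‖w‖ := by
        rw [norm_Upow x hU]
        ring

lemma norm_inv_succ (N : ℕ) : ‖((N : ℂ) + 1)⁻¹‖ = ((N : ℝ) + 1)⁻¹ := by
  rw [norm_inv]
  congr 1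
  have : ((N : ℂ) + 1) = ((N + 1 : ℕ) : ℂ) := by push_cast; ring
  rw [this, Complex.norm_natCast]
  push_cast
  ring

lemma av_le (hU : adjoint U * U = 1) (N : ℕ) (v w : K) :
    ‖av U x N v w‖ ≤ ‖x‖ ^ 2 * ‖v‖ * ‖w‖ := by
  unfold av
  rw [norm_mul, norm_inv_succ]
  have h1 : ‖∑ j ∈ Finset.range (N + 1), ⟪v, (U ^ j) x⟫_ℂ * ⟪(U ^ j) x, w⟫_ℂ‖ ≤
      ((N : ℝ) + 1) * (‖x‖ ^ 2 * ‖v‖ * ‖w‖) := by
    refine (norm_sum_le_of_le _ (fun j _ => term_le x hU j v w)).trans (le_of_eq ?_)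
    simp
  calc ((N : ℝ) + 1)⁻¹ * ‖∑ j ∈ Finset.range (N + 1), ⟪v, (U ^ j) x⟫_ℂ * ⟪(U ^ j) x, w⟫_ℂ‖
      ≤ ((N : ℝ) + 1)⁻¹ * (((N : ℝ) + 1) * (‖x‖ ^ 2 * ‖v‖ * ‖w‖)) := by gcongr
    _ = ‖x‖ ^ 2 * ‖v‖ * ‖w‖ := by
        have : (N : ℝ) + 1 ≠ 0 := by positivity
        field_simp

lemma av_tendsto (hU : adjoint U * U = 1) (v w : K) :
    Tendsto (fun N => av U x N v w) (hyperfilter ℕ : Filter ℕ)
      (𝓝 (UL fun N => av U x N v w)) :=
  UL_tendsto _ _ fun N => av_le x hU N v w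

lemma av_add_left (N : ℕ) (v v' w : K) : av U x N (v + v') w = av U x N v w + av U x N v' w := by
  unfold av
  rw [← mul_add, ← Finset.sum_add_distrib]
  congr 1
  refine Finset.sum_congr rfl fun j _ => ?_
  rw [inner_add_left, add_mul]

lemma av_smul_left (N : ℕ) (z : ℂ) (v w : K) : av U x N (z • v) w = conj z * av U x N v w := by
  unfold av
  rw [mul_left_comm (conj z), Finset.mul_sum (Finset.range (N + 1)) _ (conj z)]
  congr 1
  refine Finset.sum_congr rfl fun j _ => ?_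
  rw [inner_smul_left, mul_assoc]

lemma av_add_right (N : ℕ) (v w w' : K) : av U x N v (w + w') = av U x N v w + av U x N v w' := by
  unfold av
  rw [← mul_add, ← Finset.sum_add_distrib]
  congr 1
  refine Finset.sum_congr rfl fun j _ => ?_
  rw [inner_add_right, mul_add]

lemma av_smul_right (N : ℕ) (z : ℂ) (v w : K) : av U x N v (z • w) = z * av U x N v w := by
  unfold av
  rw [mul_left_comm z, Finset.mul_sum (Finset.range (N + 1)) _ z]
  congr 1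
  refine Finset.sum_congr rfl fun j _ => ?_
  rw [inner_smul_right, mul_left_comm]

lemma av_conj (N : ℕ) (v w : K) : av U x N w v = conj (av U x N v w) := by
  unfold av
  rw [map_mul, map_inv₀, map_add, map_one, Complex.conj_natCast, map_sum]
  congr 1
  refine Finset.sum_congr rfl fun j _ => ?_
  rw [map_mul, inner_conj_symm, inner_conj_symm, mul_comm]

lemma av_re (N : ℕ) (v : K) : (av U x N v v).re =
    ((N : ℝ) + 1)⁻¹ * ∑ j ∈ Finset.range (N + 1), ‖⟪v, (U ^ j) x⟫_ℂ‖ ^ 2 := by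
  have h1 : av U x N v v =
      ((((N : ℝ) + 1)⁻¹ * ∑ j ∈ Finset.range (N + 1), ‖⟪v, (U ^ j) x⟫_ℂ‖ ^ 2 : ℝ) : ℂ) := by
    unfold av
    rw [Complex.ofReal_mul, Complex.ofReal_inv, Complex.ofReal_add, Complex.ofReal_one,
      Complex.ofReal_natCast, Complex.ofReal_sum]
    congr 1
    refine Finset.sum_congr rfl fun j _ => ?_
    rw [← inner_conj_symm ((U ^ j) x) v, Complex.mul_conj, Complex.normSq_eq_norm_sq]
  rw [h1, Complex.ofReal_re]

/-- the form -/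
noncomputable def form (hU : adjoint U * U = 1) : K →L⋆[ℂ] K →L[ℂ] ℂ :=
  LinearMap.mkContinuous₂ (LinearMap.mk₂'ₛₗ (starRingEnd ℂ) (RingHom.id ℂ)
    (fun v w => UL fun N => av U x N v w)
    (fun v v' w => by
      refine UL_unique _ _ ?_
      simp only [av_add_left]
      exact (av_tendsto x hU v w).add (av_tendsto x hU v' w))
    (fun z v w => by
      refine UL_unique _ _ ?_
      simp only [av_smul_left]
      exact (av_tendsto x hU v w).const_mul _)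
    (fun v w w' => by
      refine UL_unique _ _ ?_
      simp only [av_add_right]
      exact (av_tendsto x hU v w).add (av_tendsto x hU v w'))
    (fun z v w => by
      refine UL_unique _ _ ?_
      simp only [av_smul_right]
      exact (av_tendsto x hU v w).const_mul _)) (‖x‖ ^ 2) (fun v w => by
    refine le_of_tendsto (av_tendsto x hU v w).norm (Eventually.of_forall fun N => ?_)
    exact av_le x hU N v w)

lemma form_apply (hU : adjoint U * U = 1) (v w : K) :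
    form x hU v w = UL fun N => av U x N v w := rfl

/-- the operator -/
noncomputable def opC (hU : adjoint U * U = 1) : K →L[ℂ] K :=
  InnerProductSpace.continuousLinearMapOfBilin (form x hU)

lemma opC_tendsto (hU : adjoint U * U = 1) (v w : K) :
    Tendsto (fun N => av U x N v w) (hyperfilter ℕ : Filter ℕ) (𝓝 ⟪opC x hU v, w⟫_ℂ) := by
  rw [opC, InnerProductSpace.continuousLinearMapOfBilin_apply, form_apply]
  exact av_tendsto x hU v w

lemma opC_sa (hU : adjoint U * U = 1) : adjoint (opC x hU) = opC x hU := by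
  refine ContinuousLinearMap.ext fun v => ext_inner_right ℂ fun w => ?_
  rw [adjoint_inner_left, ← inner_conj_symm]
  have h1 := (Complex.continuous_conj.tendsto _).comp (opC_tendsto x hU w v)
  have h2 := opC_tendsto x hU v w
  refine tendsto_nhds_unique h1 ?_
  refine h2.congr fun N => ?_
  exact av_conj x N w v

lemma opC_tendsto' (hU : adjoint U * U = 1) (v : K) :
    Tendsto (fun N => (av U x N v v).re) (hyperfilter ℕ : Filter ℕ)
      (𝓝 (⟪v, opC x hU v⟫_ℂ).re) := by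
  have h1 : ⟪v, opC x hU v⟫_ℂ = ⟪opC x hU v, v⟫_ℂ := by
    rw [← adjoint_inner_left, opC_sa]
  rw [h1]
  exact (Complex.continuous_re.tendsto _).comp (opC_tendsto x hU v v)

lemma opC_pos (hU : adjoint U * U = 1) (v : K) : 0 ≤ (⟪v, opC x hU v⟫_ℂ).re := by
  refine ge_of_tendsto' (opC_tendsto' x hU v) fun N => ?_
  rw [av_re]
  positivity

lemma opC_comm (hU : adjoint U * U = 1) (hU' : U * adjoint U = 1) :
    opC x hU * U = U * opC x hU := by
  refine ContinuousLinearMap.ext fun v => ext_inner_right ℂ fun w => ?_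
  show ⟪opC x hU (U v), w⟫_ℂ = ⟪U (opC x hU v), w⟫_ℂ
  rw [← adjoint_inner_right U]
  have h1 := opC_tendsto x hU (U v) w
  have h2 := opC_tendsto x hU v (adjoint U w)
  set t : ℕ → ℂ := fun j => ⟪U v, (U ^ j) x⟫_ℂ * ⟪(U ^ j) x, w⟫_ℂ with ht
  have h3 : ∀ j, ⟪v, (U ^ j) x⟫_ℂ * ⟪(U ^ j) x, adjoint U w⟫_ℂ = t (j + 1) := by
    intro j
    rw [ht]
    simp only
    have e1 : (U ^ (j + 1)) x = U ((U ^ j) x) := by rw [pow_succ']; rfl
    have h4 : adjoint U (U v) = v := by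
      have := congrArg (fun A : K →L[ℂ] K => A v) hU
      simpa using this
    have h5 : ∀ y : K, ⟪U v, U y⟫_ℂ = ⟪v, y⟫_ℂ := by
      intro y
      rw [← adjoint_inner_left U, h4]
    rw [e1, adjoint_inner_right, h5]
  have h4 : ∀ N, av U x N (U v) w - av U x N v (adjoint U w) =
      ((N : ℂ) + 1)⁻¹ * (t 0 - t (N + 1)) := by
    intro N
    unfold av
    rw [← mul_sub]
    congr 1
    rw [← Finset.sum_sub_distrib, Finset.sum_congr rfl (fun j _ => by rw [h3 j])]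
    have := Finset.sum_range_sub' t (N + 1)
    exact this
  have h5 : Tendsto (fun N : ℕ => ((N : ℂ) + 1)⁻¹ * (t 0 - t (N + 1))) atTop (𝓝 0) := by
    rw [tendsto_zero_iff_norm_tendsto_zero]
    have h6 : Tendsto (fun N : ℕ => (1 / ((N : ℝ) + 1)) * (2 * (‖x‖ ^ 2 * ‖U v‖ * ‖w‖))) atTop
        (𝓝 (0 * (2 * (‖x‖ ^ 2 * ‖U v‖ * ‖w‖)))) :=
      tendsto_one_div_add_atTop_nhds_zero_nat.mul_const _
    rw [zero_mul] at h6
    refine squeeze_zero (fun N => norm_nonneg _) (fun N => ?_) h6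
    rw [norm_mul, norm_inv_succ, one_div]
    have h7 : ‖t 0 - t (N + 1)‖ ≤ 2 * (‖x‖ ^ 2 * ‖U v‖ * ‖w‖) := by
      refine (norm_sub_le _ _).trans ?_
      have a1 := term_le x hU 0 (U v) w
      have a2 := term_le x hU (N + 1) (U v) w
      calc ‖t 0‖ + ‖t (N + 1)‖ ≤ ‖x‖ ^ 2 * ‖U v‖ * ‖w‖ + ‖x‖ ^ 2 * ‖U v‖ * ‖w‖ := add_le_add a1 a2
        _ = _ := by ring
    gcongr
  have h8 := h1.sub h2
  simp only [h4] at h8
  have h9 := tendsto_nhds_unique h8 (h5.mono_left Nat.hyperfilter_le_atTop)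
  exact sub_eq_zero.1 h9

lemma eig (hU : adjoint U * U = 1) (v : K) (l : ℂ) (hl : ‖l‖ = 1) (hv : U v = l • v) (j : ℕ) :
    ‖⟪v, (U ^ j) x⟫_ℂ‖ = ‖⟪v, x⟫_ℂ‖ := by
  induction j with
  | zero => simp
  | succ j ih =>
    have e1 : (U ^ (j + 1)) x = U ((U ^ j) x) := by rw [pow_succ']; rfl
    have hl0 : l ≠ 0 := by
      intro h
      rw [h, norm_zero] at hl
      exact zero_ne_one hl
    have h2 : adjoint U v = l⁻¹ • v := by
      have h3 : adjoint U (U v) = v := by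
        have := congrArg (fun A : K →L[ℂ] K => A v) hU
        simpa using this
      rw [hv, map_smul] at h3
      rw [← h3, smul_smul, inv_mul_cancel₀ hl0, one_smul]
      rw [h3]
    rw [e1, ← adjoint_inner_left U, h2, inner_smul_left, norm_mul, ih, RCLike.norm_conj, norm_inv, hl]
    simp

end average

theorem cpt : S_CPT := by
  intro K _ _ _ U x s η c hU hU' hc hη
  refine ⟨opC x hU, ?_, opC_sa x hU, opC_pos x hU, ?_, opC_comm x hU hU', ?_⟩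
  · refine cpt_of_trace (opC x hU) (opC_sa x hU) (opC_pos x hU) (‖x‖ ^ 2) ?_
    intro ι b hb t
    have h1 : Tendsto (fun N => ∑ i ∈ t, (av U x N (b i) (b i)).re) (hyperfilter ℕ : Filter ℕ)
        (𝓝 (∑ i ∈ t, (⟪b i, opC x hU (b i)⟫_ℂ).re)) :=
      tendsto_finsetSum _ fun i _ => opC_tendsto' x hU (b i)
    refine le_of_tendsto' h1 fun N => ?_
    simp only [av_re]
    rw [← Finset.mul_sum, Finset.sum_comm]
    have h2 : ∑ j ∈ Finset.range (N + 1), ∑ i ∈ t, ‖⟪b i, (U ^ j) x⟫_ℂ‖ ^ 2 ≤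
        ((N : ℝ) + 1) * ‖x‖ ^ 2 := by
      refine (Finset.sum_le_sum (g := fun _ => ‖x‖ ^ 2) fun j _ => ?_).trans (le_of_eq ?_)
      · have h3 := hb.sum_inner_products_le ((U ^ j) x) (s := t)
        rwa [norm_Upow x hU] at h3
      · simp
    calc ((N : ℝ) + 1)⁻¹ * ∑ j ∈ Finset.range (N + 1), ∑ i ∈ t, ‖⟪b i, (U ^ j) x⟫_ℂ‖ ^ 2
        ≤ ((N : ℝ) + 1)⁻¹ * (((N : ℝ) + 1) * ‖x‖ ^ 2) := by gcongr
      _ = ‖x‖ ^ 2 := by
          have : (N : ℝ) + 1 ≠ 0 := by positivity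
          field_simp
  · intro h0
    have h1 : Tendsto (fun N => ∑ i ∈ s, (av U x N (η i) (η i)).re) (hyperfilter ℕ : Filter ℕ)
        (𝓝 (∑ i ∈ s, (⟪η i, opC x hU (η i)⟫_ℂ).re)) :=
      tendsto_finsetSum _ fun i _ => opC_tendsto' x hU (η i)
    have h2 : c ≤ ∑ i ∈ s, (⟪η i, opC x hU (η i)⟫_ℂ).re := by
      refine ge_of_tendsto' h1 fun N => ?_
      simp only [av_re]
      rw [← Finset.mul_sum, Finset.sum_comm]
      have h3 : ((N : ℝ) + 1) * c ≤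
          ∑ j ∈ Finset.range (N + 1), ∑ i ∈ s, ‖⟪η i, (U ^ j) x⟫_ℂ‖ ^ 2 := by
        refine (le_of_eq ?_).trans (Finset.sum_le_sum (f := fun _ => c) fun j _ => hη j)
        simp
      calc c = ((N : ℝ) + 1)⁻¹ * (((N : ℝ) + 1) * c) := by
            have : (N : ℝ) + 1 ≠ 0 := by positivity
            field_simp
        _ ≤ _ := by gcongr
    rw [h0] at h2
    simp at h2
    linarith
  · intro v l hl hv
    have h1 := opC_tendsto' x hU v
    have h2 : ∀ N, (av U x N v v).re = ‖⟪v, x⟫_ℂ‖ ^ 2 := by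
      intro N
      rw [av_re, Finset.sum_congr rfl (fun j _ => by rw [eig x hU v l hl hv j])]
      have : (N : ℝ) + 1 ≠ 0 := by positivity
      simp only [Finset.sum_const, Finset.card_range, nsmul_eq_mul, Nat.cast_add, Nat.cast_one]
      field_simp
    simp only [h2] at h1
    exact tendsto_nhds_unique h1 tendsto_const_nhds

end Pool.Agent.W402.WHH
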